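import Mathlib
import Pool.Agent.H96.NI3
import Pool.Agent.H96.NI4
import Pool.Agent.H96.NI5

open Set
open scoped Manifold ContDiff

namespace Pool.Agent.Results.MP_1b26ca_an.Yes

/-- basic `k`-step nilsequence `n ↦ F (g ^ n x)` on a `k`-step nilmanifold `G / Γ` -/
def Basic (k : ℕ) (ψ : ℕ+ → ℂ) : Prop :=
  ∃ (E : Type) (_ : NormedAddCommGroup E) (_ : NormedSpace ℝ E) (_ : FiniteDimensional ℝ E)
    (G : Type) (_ : Group G) (_ : TopologicalSpace G) (_ : T2Space G)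
    (_ : SecondCountableTopology G) (_ : ChartedSpace E G) (_ : LieGroup 𝓘(ℝ, E) ∞ G)
    (_ : Subgroup.lowerCentralSeries (⊤ : Subgroup G) k = ⊥)
    (Γ : Subgroup G) (_ : DiscreteTopology Γ) (_ : CompactSpace (G ⧸ Γ))
    (g : G) (x : G ⧸ Γ) (F : C(G ⧸ Γ, ℂ)), ∀ n : ℕ+, ψ n = F (g ^ (n : ℕ) • x)

/-- `k`-step nilsequence: a uniform limit of basic ones -/
def Nilseq (k : ℕ) (ψ : ℕ+ → ℂ) : Prop :=
  ∀ ε : ℝ, 0 < ε → ∃ φ, Basic k φ ∧ ∀ n, ‖ψ n - φ n‖ ≤ ε

/-- `k`-step interpolation set -/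
def Interp (k : ℕ) (E : Set ℕ+) : Prop :=
  ∀ f : E → ℂ, (∃ C : ℝ, ∀ n, ‖f n‖ ≤ C) → ∃ ψ, Nilseq k ψ ∧ ∀ n : E, ψ n = f n

open Pool.Agent.H96.NI

theorem result (k : ℕ) (hk : 2 ≤ k) : ∃ E : Set ℕ+, Interp (k + 1) E ∧ ¬ Interp k E := by
  classical
  refine ⟨{n | ∃ u : Fin (k + 1) → ℕ, Function.Injective u ∧ ∑ t, Xs (k + 1) (u t) = n}, ?_, ?_⟩
  · rintro f ⟨C, hC⟩
    let f' : ℕ → ℂ := fun n => if h : ∃ e : {n : ℕ+ | ∃ u : Fin (k + 1) → ℕ, Function.Injective u ∧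
      ∑ t, Xs (k + 1) (u t) = n}, ((e : ℕ+) : ℕ) = n then f h.choose else 0
    set R := |C| + 1 with hR
    have hR0 : 0 < R := by positivity
    have hf' : ∀ n, ‖f' n‖ < R := fun n => by
      simp only [f']
      split_ifs
      · exact ((hC _).trans (le_abs_self C)).trans_lt (lt_add_one _)
      · simpa using hR0
    have hI : ∀ t : ℝ, |t| < R → (t + R) / (2 * R) ∈ Ico (0 : ℝ) 1 := fun t ht =>
      ⟨div_nonneg (by linarith [(abs_lt.1 ht).1]) (by positivity),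
        (div_lt_one (by positivity)).2 (by linarith [(abs_lt.1 ht).2])⟩
    obtain ⟨θ, hθ⟩ := realInt (m := k + 1) (by omega) _ fun n =>
      hI _ ((Complex.abs_re_le_norm (f' n)).trans_lt (hf' n))
    obtain ⟨θ', hθ'⟩ := realInt (m := k + 1) (by omega) _ fun n =>
      hI _ ((Complex.abs_im_le_norm (f' n)).trans_lt (hf' n))
    refine ⟨fun n => ((2 * R * ∑' j, H0 (θ j * ((n : ℕ) : ℝ) ^ (k + 1)) * ((2 : ℝ) ^ (j + 1))⁻¹ - R
      : ℝ) : ℂ) + ((2 * R * ∑' j, H0 (θ' j * ((n : ℕ) : ℝ) ^ (k + 1)) * ((2 : ℝ) ^ (j + 1))⁻¹ - R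
      : ℝ) : ℂ) * Complex.I, fun ε hε => ?_, ?_⟩
    · obtain ⟨J, hJ⟩ := exists_pow_lt_of_lt_one (x := ε / (4 * R)) (y := 1 / 2) (by positivity)
        (by norm_num)
      obtain ⟨g, x, F, hF⟩ := basic (m := k + 1) (ι := Fin J ⊕ Fin J) (by omega)
        (Sum.elim (fun j => θ j) fun j => θ' j)
        (H := fun v => ((2 * R * ∑ j : Fin J, H0 (v (.inl j)) * ((2 : ℝ) ^ ((j : ℕ) + 1))⁻¹ - R
          : ℝ) : ℂ) + ((2 * R * ∑ j : Fin J, H0 (v (.inr j)) * ((2 : ℝ) ^ ((j : ℕ) + 1))⁻¹ - R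
          : ℝ) : ℂ) * Complex.I) (by have := H0_cont; fun_prop) (fun v z => by simp only [H0_int])
      refine ⟨fun n => F (g ^ (n : ℕ) • x), ⟨(Fin J ⊕ Fin J → Fin (k + 1) → ℝ) × ℝ,
        inferInstance, inferInstance, inferInstance, GG (Fin J ⊕ Fin J) (k + 1), inferInstance, inferInstance, inferInstance, inferInstance,
        inferInstance, inferInstance, nil (by omega), Lat _ _, inferInstance, inferInstance, g, x, F,
        fun _ => rfl⟩, fun n => ?_⟩
      have t1 := tail (fun j => θ j * ((n : ℕ) : ℝ) ^ (k + 1)) J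
      have t2 := tail (fun j => θ' j * ((n : ℕ) : ℝ) ^ (k + 1)) J
      simp only [← hF, Sum.elim_inl, Sum.elim_inr]
      refine (Complex.norm_le_abs_re_add_abs_im _).trans ?_
      simp only [Complex.add_re, Complex.sub_re, Complex.add_im, Complex.sub_im, Complex.ofReal_re,
        Complex.ofReal_im, Complex.mul_re, Complex.mul_im, Complex.I_re, Complex.I_im, mul_zero,
        mul_one, sub_zero, add_zero, zero_add, sub_sub_sub_cancel_right, ← mul_sub, abs_mul,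
        abs_of_pos hR0, abs_two]
      rw [lt_div_iff₀ (by positivity)] at hJ
      nlinarith
    · rintro ⟨n, u, hu, e⟩
      have h1 := hθ u hu
      have h2 := hθ' u hu
      rw [e] at h1 h2
      have h3 : f' n = f ⟨n, u, hu, e⟩ := by
        have h : ∃ e : {n : ℕ+ | ∃ u : Fin (k + 1) → ℕ, Function.Injective u ∧
          ∑ t, Xs (k + 1) (u t) = n}, ((e : ℕ+) : ℕ) = n := ⟨⟨n, u, hu, e⟩, rfl⟩
        simp only [f', dif_pos h]
        congr 1
        exact Subtype.ext (PNat.eq h.choose_spec)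
      simp only [h1, h2, ← h3]
      rw [mul_div_cancel₀ _ (by positivity), mul_div_cancel₀ _ (by positivity), add_sub_cancel_right,
        add_sub_cancel_right, Complex.re_add_im]
  · intro hI
    obtain ⟨k, rfl⟩ : ∃ k', k = k' + 1 := ⟨k - 1, by omega⟩
    obtain ⟨cd, hcd⟩ := Countable.exists_injective_nat
      (Finset (Fin (k + 1) → ℕ) ⊕ Fin (k + 1) × ℕ)
    let U : Finset (Fin (k + 1) → ℕ) → (Fin (k + 1) → ℕ) → Fin (k + 1 + 1) → ℕ := fun σ w =>
      Fin.cons (cd (.inl σ)) fun s => cd (.inr (s, w s))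
    have hU : ∀ σ w, Function.Injective (U σ w) := fun σ w =>
      Fin.cons_injective_iff.2 ⟨by
        rintro ⟨s, e⟩
        simpa using hcd e, fun s s' e => by simpa using congrArg (Sum.map id Prod.fst) (hcd e)⟩
    have hP : ∀ σ w σ' w', ∑ t, Xs (k + 1 + 1) (U σ w t) = ∑ t, Xs (k + 1 + 1) (U σ' w' t) →
        σ = σ' ∧ w = w' := by
      intro σ w σ' w' e
      constructor
      · obtain ⟨t, ht⟩ := Xs_mem (by omega) e 0
        cases t using Fin.cases with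
        | zero => simpa [eq_comm] using hcd ht
        | succ t => simpa using hcd ht
      · funext s
        obtain ⟨t, ht⟩ := Xs_mem (by omega) e s.succ
        cases t using Fin.cases with
        | zero => simpa using hcd ht
        | succ t =>
          have := hcd ht
          simp only [Sum.inr.injEq, Prod.mk.injEq] at this
          rw [← this.2, this.1]
    obtain ⟨ψ, hψ, hf⟩ := hI (fun n => if ∃ σ w, ∑ t, Xs (k + 1 + 1) (U σ w t) = ((n : ℕ+) : ℕ) ∧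
      w ∈ σ then 1 else 0) ⟨1, fun n => by split_ifs <;> simp⟩
    obtain ⟨φ, ⟨E, _, _, _, G, _, _, _, _, _, _, hn, Γ, _, _, g, x, F, hF⟩, hφ⟩ :=
      hψ (1 / 4) (by norm_num)
    have : IsTopologicalGroup G := topologicalGroup_of_lieGroup 𝓘(ℝ, E) ∞
    have : ProperSpace E := FiniteDimensional.proper_real E
    have : LocallyCompactSpace G := ChartedSpace.locallyCompactSpace E G
    refine neg hn Γ g x F (fun s a => Xs (k + 1 + 1) (cd (.inr (s, a))))
      (fun σ => Xs (k + 1 + 1) (cd (.inl σ))) fun σ w => ?_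
    have hpos : 0 < ∑ t, Xs (k + 1 + 1) (U σ w t) :=
      Finset.sum_pos (fun t _ => pow_pos (by have := Bs_gt (m := k + 1 + 1) (by omega); omega) _)
        Finset.univ_nonempty
    have h1 := hφ ⟨_, hpos⟩
    have h2 := hf ⟨⟨_, hpos⟩, U σ w, hU σ w, rfl⟩
    have h3 : (∃ σ' w', ∑ t, Xs (k + 1 + 1) (U σ' w' t) = ∑ t, Xs (k + 1 + 1) (U σ w t) ∧
        w' ∈ σ') ↔ w ∈ σ := ⟨fun ⟨σ', w', e, h⟩ => by
      obtain ⟨rfl, rfl⟩ := hP _ _ _ _ e
      exact h, fun h => ⟨σ, w, rfl, h⟩⟩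
    simp only [PNat.mk_coe, h3] at h2
    rw [h2, hF, norm_sub_rev, PNat.mk_coe, Fin.sum_univ_succ] at h1
    exact h1

end Pool.Agent.Results.MP_1b26ca_an.Yes
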